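import Pool.Agent.helper70.TW.SpecF

set_option autoImplicit false

open Complex MeasureTheory Set
open scoped ComplexConjugate

namespace Pool.Agent.TW

open Pool.Agent.ZT (VV gC Bn MC lamA muA hm Sqf)

theorem T1B_log (m : ℕ) (hm : 1 ≤ m) (ρ L : ℝ) (hρ : 1 ≤ ρ) (hL : 1 ≤ L) :
    (1 + Real.log ρ / L) ^ m ≤ (1 + 5 * m : ℝ) ^ m * ρ ^ (1 / 5 : ℝ) := by
  have hρ0 : 0 < ρ := by linarith
  have hm0 : (0 : ℝ) < m := by exact_mod_cast hm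
  have hlog : 0 ≤ Real.log ρ := Real.log_nonneg hρ
  have hε : (0 : ℝ) < 1 / (5 * m) := by positivity
  have h1 : Real.log ρ / L ≤ Real.log ρ := div_le_self hlog hL
  have h2 : Real.log ρ ≤ ρ ^ (1 / (5 * m) : ℝ) / (1 / (5 * m)) := Real.log_le_rpow_div hρ0.le hε
  have h3 : (1 : ℝ) ≤ ρ ^ (1 / (5 * m) : ℝ) := Real.one_le_rpow hρ hε.le
  have h4 : ρ ^ (1 / (5 * m) : ℝ) / (1 / (5 * m)) = 5 * m * ρ ^ (1 / (5 * m) : ℝ) := by
    field_simp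
  have h5 : 1 + Real.log ρ / L ≤ (1 + 5 * m : ℝ) * ρ ^ (1 / (5 * m) : ℝ) := by
    rw [h4] at h2
    linarith
  have h6 : 0 ≤ 1 + Real.log ρ / L := by positivity
  refine (pow_le_pow_left₀ h6 h5 m).trans (le_of_eq ?_)
  rw [mul_pow, ← Real.rpow_natCast (ρ ^ (1 / (5 * m) : ℝ)) m, ← Real.rpow_mul hρ0.le]
  congr 2
  field_simp

theorem T1B (hPG1 : PG1_stmt) (hPTW : PTW_stmt) (hFMC : FMC_stmt) (hSUP : SUP_stmt) (hTVF : TVF_stmt) : T1B_stmt := by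
  intro k n N₀ c CG om μs a b hab hk hn
  obtain ⟨C, hC, hPG⟩ := hPG1 k n μs a b hk hn hab
  obtain ⟨x₀, hx₀, hx₀1, hPT⟩ := hPTW k n N₀ c CG om μs a b hab hk hn
  refine ⟨x₀, hx₀, hx₀1, fun x₁ hx₁ hx₁' => ?_⟩
  obtain ⟨C', hC', hPT⟩ := hPT x₁ hx₁ hx₁'
  set A : ℝ := (1 + 5 * (n + 2 : ℕ) : ℝ) ^ (n + 2) with hA
  have hA0 : 0 < A := by positivity
  set K : ℝ := 4 * (C * C' * A) with hK
  have hK0 : 0 < K := by positivity
  refine ⟨max 3 (K ^ 10), le_max_left _ _, ?_⟩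
  intro ι D hDa hDb hOk q v hq
  have hq3 : 3 ≤ q := (le_max_left _ _).trans hq
  have hqK : K ^ 10 ≤ q := (le_max_right _ _).trans hq
  have hq0 : 0 < q := by linarith
  have hL1 : 1 ≤ Real.log q := by
    rw [Real.le_log_iff_exp_le hq0]
    have := Real.exp_one_lt_d9
    linarith
  have hsq0 : 0 < √q := Real.sqrt_pos.2 hq0
  have hsq1 : 1 ≤ √q := by
    rw [Real.one_le_sqrt]
    linarith
  have hn1 : 1 ≤ n := by omega
  have hr1 : ∀ i, 1 ≤ D.r i := hOk.fam.r1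
  have hN0 : 0 ≤ D.N x₁ q v := (hSUP n ι D hn1 hOk.ctr hr1 hOk.om hOk.fam.bd hOk.pos v).2.2.2.2.2.2.2.1 x₁ q hx₁ hq3
  have hT := (hTVF n ι D hn1 hOk.ctr hr1 hOk.om hOk.fam.bd hOk.fam.mul hOk.pos q (by linarith)).2.2.1 v v.support 1
    subset_rfl one_ne_zero
  have hrho : ∀ i, D.rho i = (D.r i : ℝ) ^ ((n : ℝ) / 2) := by
    intro i
    rw [Dat.rho, Real.sqrt_eq_rpow, ← Real.rpow_natCast, ← Real.rpow_mul (Nat.cast_nonneg _)]
    congr 1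
    ring
  have hrR : ∀ i, (1 : ℝ) ≤ D.r i := fun i => by exact_mod_cast hr1 i
  have hrho1 : ∀ i, 1 ≤ D.rho i := fun i => by
    rw [hrho]
    exact Real.one_le_rpow (hrR i) (by positivity)
  have hterm : ∀ i, ‖D.f 0 i (v i) (1 / √q)‖ ≤ C * C' * A * (q ^ (-(1 / 5) : ℝ) * D.N x₁ q v) * (D.r i : ℝ) ^ (-((n : ℝ) / 10)) := by
    intro i
    have hρ := hrho1 i
    have hρ0 : 0 < D.rho i := by linarith
    have h1 := (hPG ι D hDa hDb hr1 hOk.om hOk.fam.bd hOk.mu hOk.pos (Real.log q) (1 / √q) i (v i) 0 hL1 (by positivity)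
      (by norm_num)).2 (by
        rw [div_le_iff₀ hsq0]
        nlinarith)
    have h2 := (hPT ι D hDa hDb hOk q v i hq3).1
    have h3 := T1B_log (n + 2) (by omega) (D.rho i) (Real.log q) hρ hL1
    have h4 : MC (D.μ i) (Real.log q) (v i) ≤ C' * (D.rho i)⁻¹ * (A * (D.rho i) ^ (1 / 5 : ℝ)) * (D.N x₁ q v / √q) := by
      refine h2.trans ?_
      refine mul_le_mul_of_nonneg_right (mul_le_mul_of_nonneg_left h3 (by positivity)) (by positivity)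
    have e1 : (1 / √q / D.rho i) ^ (-(3 / 5) : ℝ) = (√q) ^ (3 / 5 : ℝ) * (D.rho i) ^ (3 / 5 : ℝ) := by
      rw [div_div, one_div, Real.inv_rpow (by positivity), Real.rpow_neg (by positivity), inv_inv,
        Real.mul_rpow hsq0.le hρ0.le]
    have e2 : (√q) ^ (3 / 5 : ℝ) / √q = q ^ (-(1 / 5) : ℝ) := by
      have : √q = q ^ (1 / 2 : ℝ) := Real.sqrt_eq_rpow q
      rw [this, ← Real.rpow_mul hq0.le, ← Real.rpow_sub hq0]
      congr 1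
      norm_num
    have e3 : (D.rho i) ^ (3 / 5 : ℝ) * (D.rho i)⁻¹ * (D.rho i) ^ (1 / 5 : ℝ) = (D.r i : ℝ) ^ (-((n : ℝ) / 10)) := by
      have : (D.rho i)⁻¹ = (D.rho i) ^ (-1 : ℝ) := by rw [Real.rpow_neg_one]
      rw [this, ← Real.rpow_add hρ0, ← Real.rpow_add hρ0, hrho i, ← Real.rpow_mul (by linarith [hrR i])]
      congr 1
      ring
    refine h1.trans ?_
    rw [e1]
    calc C * ((√q) ^ (3 / 5 : ℝ) * (D.rho i) ^ (3 / 5 : ℝ)) * MC (D.μ i) (Real.log q) (v i)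
        ≤ C * ((√q) ^ (3 / 5 : ℝ) * (D.rho i) ^ (3 / 5 : ℝ)) *
          (C' * (D.rho i)⁻¹ * (A * (D.rho i) ^ (1 / 5 : ℝ)) * (D.N x₁ q v / √q)) :=
          mul_le_mul_of_nonneg_left h4 (by positivity)
      _ = C * C' * A * ((√q) ^ (3 / 5 : ℝ) / √q * D.N x₁ q v) *
          ((D.rho i) ^ (3 / 5 : ℝ) * (D.rho i)⁻¹ * (D.rho i) ^ (1 / 5 : ℝ)) := by ring
      _ = _ := by rw [e2, e3]
  have hsum : ∑ i ∈ v.support, (D.r i : ℝ) ^ (-((n : ℝ) / 10)) ≤ 4 := by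
    have h1 := (hFMC n ι D hr1 hOk.fam.cnt).2.2 1 ((n : ℝ) / 10) v.support le_rfl (by
      have : (300000 : ℝ) ≤ n := by exact_mod_cast (by omega : 300000 ≤ n)
      linarith) (fun i _ => hrR i)
    rw [Real.one_rpow, mul_one] at h1
    exact h1
  have hX : ∀ i, D.X i 1 = 1 := hOk.fam.one
  rw [hT]
  have h5 : ‖∑ i ∈ v.support, D.X i 1 * D.f 0 i (v i) (((1 : ℕ) : ℝ) / √q)‖ ≤
      C * C' * A * (q ^ (-(1 / 5) : ℝ) * D.N x₁ q v) * 4 := by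
    refine (norm_sum_le _ _).trans ?_
    calc ∑ i ∈ v.support, ‖D.X i 1 * D.f 0 i (v i) (((1 : ℕ) : ℝ) / √q)‖
        ≤ ∑ i ∈ v.support, C * C' * A * (q ^ (-(1 / 5) : ℝ) * D.N x₁ q v) * (D.r i : ℝ) ^ (-((n : ℝ) / 10)) := by
          refine Finset.sum_le_sum fun i _ => ?_
          rw [hX, one_mul, Nat.cast_one]
          exact hterm i
      _ = C * C' * A * (q ^ (-(1 / 5) : ℝ) * D.N x₁ q v) * ∑ i ∈ v.support, (D.r i : ℝ) ^ (-((n : ℝ) / 10)) := by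
          rw [Finset.mul_sum]
      _ ≤ _ := mul_le_mul_of_nonneg_left hsum (by positivity)
  refine h5.trans ?_
  have h6 : K ≤ q ^ (1 / 10 : ℝ) := by
    calc K = (K ^ (10 : ℕ)) ^ (1 / 10 : ℝ) := by
          rw [← Real.rpow_natCast, ← Real.rpow_mul hK0.le]
          norm_num
      _ ≤ _ := Real.rpow_le_rpow (by positivity) hqK (by norm_num)
  have h7 : q ^ (1 / 10 : ℝ) * q ^ (-(1 / 5) : ℝ) = q ^ (-(1 / 10) : ℝ) := by
    rw [← Real.rpow_add hq0]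
    norm_num
  calc C * C' * A * (q ^ (-(1 / 5) : ℝ) * D.N x₁ q v) * 4 = K * q ^ (-(1 / 5) : ℝ) * D.N x₁ q v := by
        rw [hK]
        ring
    _ ≤ q ^ (1 / 10 : ℝ) * q ^ (-(1 / 5) : ℝ) * D.N x₁ q v :=
        mul_le_mul_of_nonneg_right (mul_le_mul_of_nonneg_right h6 (by positivity)) hN0
    _ = _ := by rw [h7]

end Pool.Agent.TW
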