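import Pool.Agent.helper1.TW.SpecA

/-!
Row `tw:TAI`: the tail.
-/

set_option autoImplicit false

open Complex MeasureTheory Set
open scoped ComplexConjugate

namespace Pool.Agent.TW

open Pool.Agent.ZT (VV gC Bn MC lamA muA hm Sqf)

theorem TAI_Bn (n : ℕ) (L x : ℝ) (hL : 0 < L) (hx : 0 < x) : 0 ≤ Bn n L x := by
  unfold Bn
  split_ifs with h
  · exact Real.rpow_nonneg hx.le _
  · have h1 : 0 ≤ Real.log x := Real.log_nonneg (not_le.1 h).le
    positivity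

theorem TAI_N0 {n : ℕ} {ι : Type} (D : Dat n ι) (x₁ q : ℝ) (v : ι →₀ VV) (hx : 0 < x₁)
    (hq : 3 ≤ q) : 0 ≤ D.N x₁ q v := by
  unfold Dat.N
  refine mul_nonneg (Real.sqrt_nonneg _) (setIntegral_nonneg measurableSet_Ioi fun x hx' => ?_)
  refine mul_nonneg (TAI_Bn n _ x (Real.log_pos (by linarith)) (hx.trans hx')) ?_
  exact Real.iSup_nonneg fun i => norm_nonneg _

/-- `(√(r ^ n)) ^ t = r ^ (n / 2 * t)` -/
theorem TAI_rho (n : ℕ) (r t : ℝ) (hr : 0 < r) : (√(r ^ n)) ^ t = r ^ ((n : ℝ) / 2 * t) := by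
  rw [Real.sqrt_eq_rpow, ← Real.rpow_natCast, ← Real.rpow_mul hr.le, ← Real.rpow_mul hr.le]
  congr 1
  ring

theorem TAI (hPTW : PTW_stmt) (hFMC : FMC_stmt) : TAI_stmt := by
  intro k n N₀ c CG om μs a b hctr hk hn
  obtain ⟨x₀, hx0, hx01, hP⟩ := hPTW k n N₀ c CG om μs a b hctr hk hn
  refine ⟨x₀, hx0, hx01, fun x₁ hx1 hx10 => ?_⟩
  obtain ⟨C, hC, hP⟩ := hP x₁ hx1 hx10
  have hx1r : 0 < x₁ ^ (-(3 / 5) : ℝ) := Real.rpow_pos_of_pos hx1 _
  refine ⟨4 * C * x₁ ^ (-(3 / 5) : ℝ), by positivity, ?_⟩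
  intro ι D ha hb hok q v R₀ x s hq hR0 hx hs
  have hxpos : 0 < x := hx1.trans_le hx
  have hkR : (3 : ℝ) ≤ k := by exact_mod_cast hk
  have hnR : (100000 : ℝ) * k ≤ n := by exact_mod_cast hn
  have hn0 : (0 : ℝ) < n := by nlinarith
  set m : ℝ := max 1 x with hm
  have hm1 : 1 ≤ m := le_max_left _ _
  have hm0 : 0 < m := by linarith
  have hR : Rx n R₀ x = R₀ * m ^ (4 / (n : ℝ)) := rfl
  have hmp : 1 ≤ m ^ (4 / (n : ℝ)) := Real.one_le_rpow hm1 (by positivity)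
  have hR1 : 1 ≤ Rx n R₀ x := by
    rw [hR]
    nlinarith
  have hNq : 0 ≤ D.N x₁ q v / √q := div_nonneg (TAI_N0 D x₁ q v hx1 hq) (Real.sqrt_nonneg _)
  have hth0 : 0 < th k := by
    unfold th
    positivity
  have hth : th k ≤ 1 / 3000 := by
    unfold th
    rw [div_le_div_iff₀ (by positivity) (by norm_num)]
    nlinarith
  set β : ℝ := (n : ℝ) / 2 * (2 / 5 - th k) with hβ
  have hβ1 : (n : ℝ) / 6 + 2 ≤ β := by
    have h1 : (n : ℝ) / 2 * (2 / 5 - 1 / 3000) ≤ β := by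
      rw [hβ]
      exact mul_le_mul_of_nonneg_left (by linarith) (by positivity)
    nlinarith
  have hβ3 : 3 ≤ β := by nlinarith
  -- each term
  have hterm : ∀ i ∈ s, ‖D.f 0 i (v i) x‖ ≤
      C * x ^ (-(3 / 5) : ℝ) * (D.r i : ℝ) ^ (-β) * (D.N x₁ q v / √q) := by
    intro i hi
    have hri : Rx n R₀ x ≤ (D.r i : ℝ) := hs i hi
    have hr0 : (0 : ℝ) < D.r i := by linarith
    have hxr : x ≤ D.rho i := by
      have h1 : m ^ (4 : ℝ) ≤ (D.r i : ℝ) ^ n := by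
        have h2 : m ^ (4 / (n : ℝ)) ≤ (D.r i : ℝ) := by
          refine le_trans ?_ hri
          rw [hR]
          nlinarith
        have h3 := pow_le_pow_left₀ (by positivity) h2 n
        refine le_trans (le_of_eq ?_) h3
        rw [← Real.rpow_natCast (m ^ (4 / (n : ℝ))) n, ← Real.rpow_mul hm0.le]
        congr 1
        field_simp
      have h4 : m ≤ √((D.r i : ℝ) ^ n) := by
        refine Real.le_sqrt_of_sq_le (le_trans ?_ h1)
        rw [← Real.rpow_natCast m 2]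
        exact Real.rpow_le_rpow_of_exponent_le hm1 (by norm_num)
      exact (le_max_right _ _).trans h4
    have h1 := ((hP ι D ha hb hok q v i hq).2 0 x (by norm_num) hx).2 hxr
    have h2 : (D.rho i) ^ (-(2 / 5) + th k) = (D.r i : ℝ) ^ (-β) := by
      unfold Dat.rho
      rw [TAI_rho n _ _ hr0]
      congr 1
      rw [hβ]
      ring
    rw [h2] at h1
    exact h1
  -- counting
  have hsum := (hFMC n ι D hok.fam.r1 hok.fam.cnt).2.2 (Rx n R₀ x) β s hR1 hβ3 hs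
  have hRb : (Rx n R₀ x) ^ (2 - β) ≤ R₀⁻¹ * m ^ (-(2 / 3) : ℝ) := by
    have h1 : (Rx n R₀ x) ^ (2 - β) ≤ (Rx n R₀ x) ^ (-((n : ℝ) / 6)) :=
      Real.rpow_le_rpow_of_exponent_le hR1 (by linarith)
    refine h1.trans ?_
    rw [hR, Real.mul_rpow (by linarith) (by positivity), ← Real.rpow_mul hm0.le]
    have h2 : 4 / (n : ℝ) * (-((n : ℝ) / 6)) = -(2 / 3) := by
      field_simp
      norm_num
    rw [h2]
    refine mul_le_mul_of_nonneg_right ?_ (by positivity)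
    rw [← Real.rpow_neg_one R₀]
    refine Real.rpow_le_rpow_of_exponent_le hR0 ?_
    nlinarith
  have hxb : x ^ (-(3 / 5) : ℝ) ≤ x₁ ^ (-(3 / 5) : ℝ) * m ^ (-(3 / 5) : ℝ) := by
    rcases le_total 1 x with h | h
    · have h1 : m = x := max_eq_right h
      rw [h1]
      have h2 : 1 ≤ x₁ ^ (-(3 / 5) : ℝ) :=
        Real.one_le_rpow_of_pos_of_le_one_of_nonpos hx1 (hx10.trans hx01) (by norm_num)
      have h3 : 0 < x ^ (-(3 / 5) : ℝ) := Real.rpow_pos_of_pos hxpos _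
      nlinarith
    · have h1 : m = 1 := max_eq_left h
      rw [h1, Real.one_rpow, mul_one]
      exact Real.rpow_le_rpow_of_nonpos hx1 hx (by norm_num)
  calc ∑ i ∈ s, ‖D.f 0 i (v i) x‖
      ≤ ∑ i ∈ s, C * x ^ (-(3 / 5) : ℝ) * (D.r i : ℝ) ^ (-β) * (D.N x₁ q v / √q) :=
        Finset.sum_le_sum hterm
    _ = C * x ^ (-(3 / 5) : ℝ) * (∑ i ∈ s, (D.r i : ℝ) ^ (-β)) * (D.N x₁ q v / √q) := by
        rw [Finset.mul_sum, Finset.sum_mul]
    _ ≤ C * (x₁ ^ (-(3 / 5) : ℝ) * m ^ (-(3 / 5) : ℝ)) * (4 * (R₀⁻¹ * m ^ (-(2 / 3) : ℝ))) *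
          (D.N x₁ q v / √q) := by
        refine mul_le_mul_of_nonneg_right ?_ hNq
        refine mul_le_mul (mul_le_mul_of_nonneg_left hxb hC.le) (hsum.trans (by linarith))
          (Finset.sum_nonneg fun i _ => Real.rpow_nonneg (Nat.cast_nonneg _) _) (by positivity)
    _ = 4 * C * x₁ ^ (-(3 / 5) : ℝ) / R₀ * (m ^ (-(3 / 5) : ℝ) * m ^ (-(2 / 3) : ℝ)) *
          (D.N x₁ q v / √q) := by
        rw [div_eq_mul_inv]
        ring
    _ ≤ 4 * C * x₁ ^ (-(3 / 5) : ℝ) / R₀ * m ^ (-(11 / 10) : ℝ) * (D.N x₁ q v / √q) := by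
        refine mul_le_mul_of_nonneg_right (mul_le_mul_of_nonneg_left ?_ (by positivity)) hNq
        rw [← Real.rpow_add hm0]
        exact Real.rpow_le_rpow_of_exponent_le hm1 (by norm_num)

end Pool.Agent.TW
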